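import Pool.Agent.Helper95.HS.Stmts
import Pool.Agent.Helper53.PN.MTH

/-! # HS: the row HFIN (after the row MTL of helper39) -/

set_option autoImplicit false

namespace Pool.Agent.Helper19.HS

open MeasureTheory Filter Pool.Agent.Helper95 Pool.Agent.Helper95.PW Pool.Agent.Helper95.LN
  Pool.Agent.Helper95.CF Pool.Agent.Helper95.HS

/-- the energy bound of the approximating functions -/
theorem hfin_en (h10 : ST_QHM) (h11 : ST_INTM) {n M : ℕ} (X : Fin M → R3) (Z : Fin M → ℝ)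
    (E : ℝ) (hEn : E + nucR X Z ≤ 0) (u : Wf n) (hu : Sm u)
    (hsq : PW.sq u ≤ 2) (hres : resM X Z E u ≤ 1 / 2) :
    QM X Z u + nucR X Z * PW.sq u ≤ 1 := by
  have h1 := innm_Q_le h10 h11 X Z E u hu
  have h0 := com_sq_nonneg u
  have h2 : (E + nucR X Z) * PW.sq u ≤ 0 := mul_nonpos_of_nonpos_of_nonneg hEn h0
  have h4 : (E + nucR X Z) * PW.sq u = E * PW.sq u + nucR X Z * PW.sq u := by ring
  linarith

theorem hfin_nucR {M : ℕ} (X : Fin M → R3) (Z : Fin M → ℝ) (hZ : ∀ j, 0 ≤ Z j) :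
    0 ≤ nucR X Z := by
  unfold nucR
  refine Finset.sum_nonneg fun i _ => Finset.sum_nonneg fun j _ => ?_
  split_ifs
  · exact div_nonneg (mul_nonneg (hZ i) (hZ j)) (com_nr_nonneg _)
  · exact le_rfl

theorem hfin_cont {g : R3 → ℝ} (hg : ContDiff ℝ (⊤ : ℕ∞) g) : Continuous (grd g) := by
  have h : ∀ i, Continuous (pd i g) := by
    intro i
    have : ContDiff ℝ (⊤ : ℕ∞) (pd i g) := by
      unfold pd
      exact (hg.fderiv_right (by simp)).clm_apply contDiff_const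
    exact this.continuous
  unfold grd
  exact continuous_finsetSum _ fun i _ => (h i).pow 2

theorem hfin_bd {g : R3 → ℝ} {K R : ℝ} (h : Scale g K R) (y : R3) : |grd g y| ≤ 3 * K ^ 2 := by
  unfold grd
  rw [abs_of_nonneg (Finset.sum_nonneg fun i _ => _root_.sq_nonneg _)]
  calc ∑ i, pd i g y ^ 2 ≤ ∑ _i : Fin 3, K ^ 2 :=
        Finset.sum_le_sum fun i _ => sq_le_sq' (by have := abs_le.1 (h.d1 i y); linarith [this.1])
          (abs_le.1 (h.d1 i y)).2
    _ = 3 * K ^ 2 := by simp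

/-- the choice of `δ` -/
theorem hfin_delta (θ : ℝ) (h6 : 6 < θ ^ 2) : ∃ δ : ℝ, 0 < δ ∧ δ ≤ 1 / 8 ∧
    3 / 8 * (1 + δ) * (4 + δ) ≤ θ ^ 2 * (1 / 4 - δ) := by
  have hp : 0 < 2 * (9 + 4 * θ ^ 2) := by positivity
  refine ⟨(θ ^ 2 - 6) / (2 * (9 + 4 * θ ^ 2)), div_pos (by linarith) hp, ?_, ?_⟩
  · rw [div_le_iff₀ hp]
    nlinarith
  · obtain ⟨δ, hδ⟩ : ∃ δ : ℝ, δ = (θ ^ 2 - 6) / (2 * (9 + 4 * θ ^ 2)) := ⟨_, rfl⟩
    rw [← hδ]
    have e : δ * (2 * (9 + 4 * θ ^ 2)) = θ ^ 2 - 6 := by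
      rw [hδ]; exact div_mul_cancel₀ _ hp.ne'
    have h0 : 0 < δ := by rw [hδ]; exact div_pos (by linarith) hp
    have h1 : δ ≤ 1 := by
      rw [hδ, div_le_iff₀ hp]
      nlinarith
    nlinarith [mul_nonneg h0.le (sub_nonneg.2 h1)]

theorem HFIN (h1 : ST_SSR) (h2 : ST_MLH) (h3 : ST_KLB) (h4 : ST_EBH) (h5 : ST_LGA)
    (h6 : ST_LGB) (h7 : ST_POTB) (h8 : ST_LIMG) (h9 : ST_CUT) (h10 : ST_APXM) (h11 : ST_LMTM)
    (h12 : ST_QHM) (h13 : ST_INTM) : ST_HFIN := by
  intro θ hθ hθ6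
  obtain ⟨δ, hδ0, hδ1, hδ⟩ := hfin_delta θ hθ6
  obtain ⟨Cs, hCs, HS⟩ := h1
  obtain ⟨Ca, hCa, HA⟩ := h2
  obtain ⟨d1, hd1, HK⟩ := h3 δ hδ0
  obtain ⟨d2, hd2, HE⟩ := h4 (1 / 8) (by norm_num)
  obtain ⟨K, hK, H6, _⟩ := h9
  have hK0 : 0 < K := by linarith
  obtain ⟨d, hd⟩ : ∃ d : ℝ, d = d1 + d2 + Ca * (8 + 9 * Ca) / δ := ⟨_, rfl⟩
  have hq0 : 0 < Ca * (8 + 9 * Ca) / δ := by positivity
  have hdd1 : d1 ≤ d := by linarith
  have hdd2 : d2 ≤ d := by linarith
  have hdd3 : Ca * (8 + 9 * Ca) / δ ≤ d := by linarith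
  have hdp : 1 ≤ d := by linarith
  have hd0 : 0 < d := by linarith
  have hCd : Ca * (8 + 9 * Ca) / d ≤ δ := by
    rw [div_le_iff₀ hd0]
    rw [div_le_iff₀ hδ0] at hdd3
    linarith
  refine ⟨d, hdp, ?_⟩
  intro n M X Z E φ G hn hM hNuc hZ1 hSep hG
  have hSep1 : Sep X d1 := fun i j hij => by have := hSep i j hij; linarith
  have hSep2 : Sep X d2 := fun i j hij => by have := hSep i j hij; linarith
  have hZ0 := hNuc.1
  have hn1 : (1:ℝ) ≤ n := by exact_mod_cast hn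
  have hn0 : (0:ℝ) ≤ n := by linarith
  have hEn : E + nucR X Z ≤ 0 := by
    have := HE n M X Z E hNuc hZ1 hSep2 hG.low
    have : 0 ≤ (1 / 4 - 1 / 8 : ℝ) * n := by positivity
    linarith
  have hE : E ≤ 0 := by
    have := hfin_nucR X Z hZ0
    linarith
  obtain ⟨Cp, hCp, HP⟩ := h7 1 d zero_le_one hd0
  obtain ⟨u, hu⟩ := h10 n M X Z E φ G hG
  obtain ⟨l1, l2, l3⟩ := h11 n M X Z E φ G u hG hu
  obtain ⟨hsm, hu1, _, ⟨M0, hM0⟩, hres⟩ := hu
  obtain ⟨W, hW⟩ : ∃ W : ℝ, W = n * (M : ℝ) ^ (2 / 3 : ℝ) := ⟨_, rfl⟩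
  have hM1 : (1:ℝ) ≤ M := by exact_mod_cast hM
  have hW1 : 1 ≤ W := by
    rw [hW]
    have := Real.one_le_rpow hM1 (by norm_num : (0:ℝ) ≤ 2 / 3)
    nlinarith
  have hKT := HK n M X Z E φ G hn hNuc hZ1 hSep1 hG
  obtain ⟨T, hT⟩ : ∃ T : ℝ, T = kinG G := ⟨_, rfl⟩
  rw [← hT] at l2 hKT ⊢
  have hT0 : 0 ≤ T := ge_of_tendsto' l2 (fun j => com_kin_nonneg _)
  have hn8 : (n : ℝ) ≤ 8 * T := by nlinarith
  obtain ⟨C', hC', HA'⟩ := HA d n M X Z E (T + 1) hdp hM hn hSep hNuc hZ1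
  obtain ⟨V, hV⟩ : ∃ V : ℝ, V = 4 * T + Ca / d * (n + Ca * (T + n)) := ⟨_, rfl⟩
  have hV0 : 0 ≤ V := by rw [hV]; positivity
  obtain ⟨N, hN⟩ : ∃ N : ℝ, N = (1 + δ) * n := ⟨_, rfl⟩
  have hN0 : 0 ≤ N := by rw [hN]; positivity
  have key : mom G ^ 2 ≤ 3 / 4 * N * (V / 2) := by
    have hLt : Tendsto (fun L : ℕ => ((L:ℝ) + 1) / 2) atTop atTop :=
      (tendsto_natCast_atTop_atTop.atTop_add tendsto_const_nhds).atTop_div_const (by norm_num)
    have hL0 : ∀ᶠ L : ℕ in atTop, ∀ j, nr (X j) ≤ ((L:ℝ) + 1) / 2 := by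
      rw [Filter.eventually_all]
      intro j
      exact hLt.eventually_ge_atTop _
    have hL1 : ∀ᶠ L : ℕ in atTop, ∀ m : Fin 3, one (grd (gm m ((L:ℝ) + 1))) φ < N := by
      rw [Filter.eventually_all]
      intro m
      have hlim := h6 n φ m hG.lp
      rw [hG.norm, mul_one] at hlim
      exact hlim.eventually_lt_const (by rw [hN]; nlinarith)
    have hev : ∀ᶠ L : ℕ in atTop, (∑ m : Fin 3, PW.sq (PG (gm m (L + 1)) φ G)) ^ 2 ≤
        3 / 4 * N * (V / 2 + Cs * K ^ 2 *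
          ((T + (Cp * (T + W) + W) + Cp * (T + W)) / (((L:ℝ) + 1) / 2) ^ 2 +
          2 * n / (((L:ℝ) + 1) / 2) ^ 4)) := by
      filter_upwards [hL0, hL1] with L hL hLN
      have hLp : (0:ℝ) < (L:ℝ) + 1 := by positivity
      obtain ⟨R, hR⟩ : ∃ R : ℝ, R = ((L:ℝ) + 1) / 2 := ⟨_, rfl⟩
      rw [← hR] at hL ⊢
      have hRp : 0 < R := by rw [hR]; positivity
      obtain ⟨B, hB⟩ : ∃ B : ℝ, B = (T + 1) + (Cp * (T + 1 + W) + W) + |M0| + N := ⟨_, rfl⟩
      obtain ⟨C'', hC'', HI⟩ := HS n M X Z E (fun m => gm m ((L:ℝ) + 1)) K R B Set.univ hG.low hZ0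
        hK (fun m => MTH_scale (H6 m _ hLp).1 hK0.le hRp (by rw [hR]; linarith)) hRp isClosed_univ
        (fun m y hy => absurd (Set.mem_univ y) hy)
        (fun m j y hy i => MTH_pd m _ (H6 m _ hLp).2.1 y
          (MTH_geo y (X j) _ hLp (by rw [← hR]; exact hy) (by rw [← hR]; exact hL j)) i)
      have e4 : ∀ᶠ j in atTop, ∀ m : Fin 3, one (grd (gm m ((L:ℝ) + 1))) (u j) ≤ N := by
        rw [Filter.eventually_all]
        intro m
        have hlim := h5 n φ u (grd (gm m ((L:ℝ) + 1))) (3 * K ^ 2)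
          (hfin_cont (H6 m _ hLp).1.sm) (hfin_bd (H6 m _ hLp).1) hG.lp (fun j => (hsm j).1) hu1
        exact hlim.eventually_le_const (hLN m)
      have hevj : ∀ᶠ j in atTop,
          (∑ m : Fin 3, PW.sq (fun s => Pg (gm m ((L:ℝ) + 1)) (u j s))) ^ 2 ≤
          3 / 4 * N * ((4 * kin (u j) + Ca / d * (n + Ca * (kin (u j) + n)) +
              C' * Real.sqrt (resM X Z E (u j))) / 2 + Cs * K ^ 2 *
            ((kin (u j) + (Cp * (kin (u j) + W) + W) +
            Cp * (kin (u j) + W)) / R ^ 2 + 2 * n / R ^ 4)) +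
            C'' * Real.sqrt (resM X Z E (u j)) := by
        have e1 : ∀ᶠ j in atTop, PW.sq (u j) ≤ 2 :=
          l1.eventually_le_const (by norm_num : (1:ℝ) < 2)
        have e2 : ∀ᶠ j in atTop, resM X Z E (u j) ≤ 1 / 2 :=
          hres.eventually_le_const (by norm_num : (0:ℝ) < 1 / 2)
        have e3 : ∀ᶠ j in atTop, kin (u j) ≤ T + 1 :=
          l2.eventually_le_const (by linarith)
        filter_upwards [e1, e2, e3, e4] with j hj1 hj2 hj3 hj4
        have hQ := innm_Q_le_one h12 h13 X Z E (u j) (hsm j).1 hE hj1 hj2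
        have hQ2 := hfin_en h12 h13 X Z E hEn (u j) (hsm j).1 hj1 hj2
        have p1 := com_kin_nonneg (u j)
        have p2 := com_pair_nonneg (u j)
        have p3 : 0 ≤ one (pot X Z) (u j) :=
          com_one_nonneg _ (innm_pot_nonneg X Z hZ0) _
        have q1 := HP n M X Z (u j) hM hSep hZ0 (fun j' => (hZ1 j').le) (hsm j).1 hj1
        rw [← hW] at q1
        have q2 : pair (u j) ≤ Cp * (kin (u j) + W) + W := by
          unfold QM at hQ
          linarith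
        have hs0 := Real.sqrt_nonneg (resM X Z E (u j))
        obtain ⟨B1, hB1⟩ : ∃ B1 : ℝ, B1 = 4 * kin (u j) + Ca / d * (n + Ca * (kin (u j) + n)) +
              C' * Real.sqrt (resM X Z E (u j)) := ⟨_, rfl⟩
        have hB1n : 0 ≤ B1 := by rw [hB1]; positivity
        have q3 : ∀ s : ℝ, 0 < s → s ≤ 1 →
            ∑ j', Z j' * one (fun y => mor s (y - X j')) (u j) ≤ B1 := by
          intro s hs hsd
          refine (HA' (u j) (hsm j).1 hj1 hj3 s hs hsd).trans ?_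
          rw [hB1]
          have w2 : Ca / d * (QM X Z (u j) - kin (u j) + nucR X Z * PW.sq (u j) +
              Ca * (kin (u j) + n)) ≤ Ca / d * (n + Ca * (kin (u j) + n)) :=
            mul_le_mul_of_nonneg_left (by linarith) (by positivity)
          linarith
        have hcp : Cp * (kin (u j) + W) ≤ Cp * (T + 1 + W) :=
          mul_le_mul_of_nonneg_left (by linarith) hCp.le
        have hcp0 : 0 ≤ Cp * (kin (u j) + W) := by positivity
        have hM2 := le_abs_self M0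
        have hM3 := abs_nonneg M0
        have hM4 := hM0 j
        have hb := HI (u j) (hsm j).1 (hsm j).2 hj1 (by linarith) (by linarith) (by linarith)
          (by linarith) (by linarith) B1 1 N hB1n one_pos hN0 (by linarith) q3 hj4
        refine hb.trans (add_le_add ?_ le_rfl)
        rw [← hB1]
        have n1 := MTH_ind (u j) hj1
        apply mul_le_mul_of_nonneg_left _ (by positivity)
        apply add_le_add le_rfl
        apply mul_le_mul_of_nonneg_left _ (by positivity)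
        have b1 : (kin (u j) + pair (u j) + one (pot X Z) (u j)) / R ^ 2 ≤
            (kin (u j) + (Cp * (kin (u j) + W) + W) + Cp * (kin (u j) + W)) / R ^ 2 :=
          div_le_div_of_nonneg_right (by linarith) (by positivity)
        have b2 : one (ind Set.univ) (u j) / R ^ 4 ≤ 2 * n / R ^ 4 :=
          div_le_div_of_nonneg_right n1 (by positivity)
        linarith
      have lim1 : Tendsto (fun j =>
          (∑ m : Fin 3, PW.sq (fun s => Pg (gm m ((L:ℝ) + 1)) (u j s))) ^ 2) atTop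
          (nhds ((∑ m : Fin 3, PW.sq (PG (gm m ((L:ℝ) + 1)) φ G)) ^ 2)) :=
        (tendsto_finsetSum _ fun m _ => l3 _ (H6 m _ hLp).1.sm (H6 m _ hLp).1.cs).pow 2
      have lr : Tendsto (fun j => Real.sqrt (resM X Z E (u j))) atTop (nhds 0) := by
        have := hres.sqrt
        rwa [Real.sqrt_zero] at this
      have lim2 : Tendsto (fun j => 3 / 4 * N * ((4 * kin (u j) +
              Ca / d * (n + Ca * (kin (u j) + n)) +
              C' * Real.sqrt (resM X Z E (u j))) / 2 + Cs * K ^ 2 *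
            ((kin (u j) + (Cp * (kin (u j) + W) + W) +
            Cp * (kin (u j) + W)) / R ^ 2 + 2 * n / R ^ 4)) +
            C'' * Real.sqrt (resM X Z E (u j))) atTop
          (nhds (3 / 4 * N * ((4 * T + Ca / d * (n + Ca * (T + n)) + C' * 0) / 2 + Cs * K ^ 2 *
            ((T + (Cp * (T + W) + W) + Cp * (T + W)) / R ^ 2 +
            2 * n / R ^ 4)) + C'' * 0)) := by
        have t1 := ((l2.add_const W).const_mul Cp)
        have t2 := (l2.add (t1.add_const W))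
        have t3 := ((t2.add t1).div_const (R ^ 2)).add_const (2 * (n:ℝ) / R ^ 4)
        have t4 := ((((l2.add_const (n:ℝ)).const_mul Ca).const_add (n:ℝ)).const_mul (Ca / d))
        have t5 := (((l2.const_mul 4).add t4).add (lr.const_mul C')).div_const 2
        exact ((t5.add (t3.const_mul (Cs * K ^ 2))).const_mul (3 / 4 * N)).add
          (lr.const_mul C'')
      have hfin := le_of_tendsto_of_tendsto lim1 lim2 hevj
      rw [mul_zero, mul_zero, add_zero, add_zero, ← hV] at hfin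
      exact hfin
    have lim1 : Tendsto (fun L : ℕ => (∑ m : Fin 3, PW.sq (PG (gm m (L + 1)) φ G)) ^ 2) atTop
        (nhds (mom G ^ 2)) := by
      unfold mom
      exact (tendsto_finsetSum _ fun m _ => h8 n φ G m hG.lp hG.lpG).pow 2
    have t0 : Tendsto (fun L : ℕ => (((L:ℝ) + 1) / 2) ^ 2) atTop atTop :=
      (tendsto_pow_atTop two_ne_zero).comp hLt
    have t1 : Tendsto (fun L : ℕ => (((L:ℝ) + 1) / 2) ^ 4) atTop atTop :=
      (tendsto_pow_atTop four_ne_zero).comp hLt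
    have t2 := (t0.const_div_atTop (T + (Cp * (T + W) + W) + Cp * (T + W))).add
      (t1.const_div_atTop (2 * (n:ℝ)))
    have t3 := ((t2.const_mul (Cs * K ^ 2)).const_add (V / 2)).const_mul (3 / 4 * N)
    have hfin := le_of_tendsto_of_tendsto lim1 t3 hev
    rw [add_zero, mul_zero, add_zero] at hfin
    exact hfin
  have hV2 : V ≤ (4 + δ) * T := by
    have v0 : Ca * (T + n) ≤ Ca * (T + 8 * T) :=
      mul_le_mul_of_nonneg_left (by linarith) hCa.le
    have v1 : (n : ℝ) + Ca * (T + n) ≤ (8 + 9 * Ca) * T := by linarith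
    have v2 : Ca / d * (n + Ca * (T + n)) ≤ Ca / d * ((8 + 9 * Ca) * T) :=
      mul_le_mul_of_nonneg_left v1 (by positivity)
    have v3 : Ca / d * ((8 + 9 * Ca) * T) = Ca * (8 + 9 * Ca) / d * T := by ring
    have v4 : Ca * (8 + 9 * Ca) / d * T ≤ δ * T := mul_le_mul_of_nonneg_right hCd hT0
    rw [hV]
    linarith
  have key2 : mom G ^ 2 ≤ (θ * T) ^ 2 := by
    have k1 : 3 / 4 * N * (V / 2) ≤ 3 / 4 * N * ((4 + δ) * T / 2) :=
      mul_le_mul_of_nonneg_left (by linarith) (by positivity)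
    have k2 : 3 / 4 * N * ((4 + δ) * T / 2) = 3 / 8 * (1 + δ) * (4 + δ) * (n * T) := by
      rw [hN]; ring
    have k3 : 3 / 8 * (1 + δ) * (4 + δ) * (n * T) ≤ θ ^ 2 * (1 / 4 - δ) * (n * T) :=
      mul_le_mul_of_nonneg_right hδ (by positivity)
    have k4 : θ ^ 2 * (1 / 4 - δ) * (n * T) = θ ^ 2 * (((1 / 4 - δ) * n) * T) := by ring
    have k5 : θ ^ 2 * (((1 / 4 - δ) * n) * T) ≤ θ ^ 2 * (T * T) :=
      mul_le_mul_of_nonneg_left (mul_le_mul_of_nonneg_right hKT hT0) (by positivity)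
    have k6 : θ ^ 2 * (T * T) = (θ * T) ^ 2 := by ring
    linarith
  exact (abs_le_of_sq_le_sq' key2 (by positivity)).2

end Pool.Agent.Helper19.HS
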